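import Mathlib

/-!
# MP_a338c1 — rook domination on the triangular board

`T_n = {(a,b,c) : a+b+c = n-1}`; a rook covers all cells sharing a coordinate with it.
We prove, for every `n ≥ 1`,

  `3 n / 7 ≤ γ(n) ≤ (11 n + 18) / 24`.

In particular the suggested formula `γ(n) = ⌊n/2⌋` fails for every even `n ≥ 20` and every odd
`n ≥ 31`, and `γ(n)` is determined for `n = 13, 15, 17, 19, 20, 22, 24, 26, 31, 33`.
-/

namespace Pool.Agent.Results.MP_a338c1_co.RookBounds

open Finset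

/-- `(a,b,c)` is a cell of the triangular board with `n` rows: `a+b+c = n-1`. -/
def IsCell (n : ℕ) (p : ℕ × ℕ × ℕ) : Prop := p.1 + p.2.1 + p.2.2 + 1 = n

/-- The rook on `r` covers the cell `p`: they lie on a common line. -/
def Covers (r p : ℕ × ℕ × ℕ) : Prop := r.1 = p.1 ∨ r.2.1 = p.2.1 ∨ r.2.2 = p.2.2

/-- `S ⊆ T_n` is a covering set of rooks. -/
def IsCovering (n : ℕ) (S : Finset (ℕ × ℕ × ℕ)) : Prop :=
  (∀ r ∈ S, IsCell n r) ∧ ∀ p, IsCell n p → ∃ r ∈ S, Covers r p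

/-- The domination number `γ(n)` of the triangular board. -/
noncomputable def gam (n : ℕ) : ℕ := sInf {k | ∃ S, IsCovering n S ∧ S.card = k}

lemma gam_le {n k : ℕ} {S : Finset (ℕ × ℕ × ℕ)} (h : IsCovering n S) (hk : S.card ≤ k) :
    gam n ≤ k :=
  le_trans (Nat.sInf_le ⟨S, h, rfl⟩) hk

/-- there is always a covering set. -/
lemma exists_covering (n : ℕ) : ∃ S, IsCovering n S := by
  classical
  refine ⟨((Finset.range n) ×ˢ ((Finset.range n) ×ˢ (Finset.range n))).filter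
    (fun p => p.1 + p.2.1 + p.2.2 + 1 = n), ?_, ?_⟩
  · intro r hr
    exact (Finset.mem_filter.1 hr).2
  · intro p hp
    refine ⟨p, ?_, Or.inl rfl⟩
    unfold IsCell at hp
    simp only [Finset.mem_filter, Finset.mem_product, Finset.mem_range]
    omega

lemma exists_opt (n : ℕ) : ∃ S, IsCovering n S ∧ S.card = gam n := by
  have h : {k | ∃ S, IsCovering n S ∧ S.card = k}.Nonempty := by
    obtain ⟨S, hS⟩ := exists_covering n
    exact ⟨_, S, hS, rfl⟩
  exact Nat.sInf_mem h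

/-! ### The lower bound -/

lemma lower_aux (n : ℕ) (S : Finset (ℕ × ℕ × ℕ)) (hS : IsCovering n S)
    (x y z M : ℕ) (hsum : x + y + z + M = n)
    (hx : ∀ v < x, ∃ r ∈ S, r.1 = v) (hy : ∀ v < y, ∃ r ∈ S, r.2.1 = v)
    (hz : ∀ v < z, ∃ r ∈ S, r.2.2 = v)
    (hM : M = 0 ∨ ((∀ r ∈ S, r.1 ≠ x) ∧ (∀ r ∈ S, r.2.1 ≠ y) ∧ (∀ r ∈ S, r.2.2 ≠ z))) :
    3 * n ≤ 7 * S.card := by
  classical
  -- low slots
  have hal : x ≤ (S.filter (fun r => r.1 < x)).card := by
    have : Finset.range x ⊆ (S.filter (fun r => r.1 < x)).image (fun r => r.1) := by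
      intro v hv
      obtain ⟨r, hr, hrv⟩ := hx v (Finset.mem_range.1 hv)
      exact Finset.mem_image.2 ⟨r, Finset.mem_filter.2 ⟨hr, by
        rw [hrv]; exact Finset.mem_range.1 hv⟩, hrv⟩
    calc x = (Finset.range x).card := (Finset.card_range x).symm
      _ ≤ _ := Finset.card_le_card this
      _ ≤ _ := Finset.card_image_le
  have hbl : y ≤ (S.filter (fun r => r.2.1 < y)).card := by
    have : Finset.range y ⊆ (S.filter (fun r => r.2.1 < y)).image (fun r => r.2.1) := by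
      intro v hv
      obtain ⟨r, hr, hrv⟩ := hy v (Finset.mem_range.1 hv)
      exact Finset.mem_image.2 ⟨r, Finset.mem_filter.2 ⟨hr, by
        rw [hrv]; exact Finset.mem_range.1 hv⟩, hrv⟩
    calc y = (Finset.range y).card := (Finset.card_range y).symm
      _ ≤ _ := Finset.card_le_card this
      _ ≤ _ := Finset.card_image_le
  have hcl : z ≤ (S.filter (fun r => r.2.2 < z)).card := by
    have : Finset.range z ⊆ (S.filter (fun r => r.2.2 < z)).image (fun r => r.2.2) := by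
      intro v hv
      obtain ⟨r, hr, hrv⟩ := hz v (Finset.mem_range.1 hv)
      exact Finset.mem_image.2 ⟨r, Finset.mem_filter.2 ⟨hr, by
        rw [hrv]; exact Finset.mem_range.1 hv⟩, hrv⟩
    calc z = (Finset.range z).card := (Finset.card_range z).symm
      _ ≤ _ := Finset.card_le_card this
      _ ≤ _ := Finset.card_image_le
  -- middle slots, in pairs
  have hab : M ≤ (S.filter (fun r => x ≤ r.1 ∧ r.1 < x + M)).card
      + (S.filter (fun r => y ≤ r.2.1 ∧ r.2.1 < y + M)).card := by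
    rcases hM with h0 | ⟨-, -, hz'⟩
    · omega
    have : Finset.range M ⊆
        (S.filter (fun r => x ≤ r.1 ∧ r.1 < x + M)).image (fun r => r.1 - x) ∪
        (S.filter (fun r => y ≤ r.2.1 ∧ r.2.1 < y + M)).image (fun r => y + M - 1 - r.2.1) := by
      intro j hj
      have hj' := Finset.mem_range.1 hj
      obtain ⟨r, hr, hc⟩ := hS.2 (x + j, y + M - 1 - j, z) (by
        show x + j + (y + M - 1 - j) + z + 1 = n
        omega)
      rcases hc with h | h | h
      · have h : r.1 = x + j := h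
        exact Finset.mem_union_left _ (Finset.mem_image.2
          ⟨r, Finset.mem_filter.2 ⟨hr, by omega⟩, by omega⟩)
      · have h : r.2.1 = y + M - 1 - j := h
        exact Finset.mem_union_right _ (Finset.mem_image.2
          ⟨r, Finset.mem_filter.2 ⟨hr, by omega⟩, by omega⟩)
      · exact absurd h (hz' r hr)
    calc M = (Finset.range M).card := (Finset.card_range M).symm
      _ ≤ _ := Finset.card_le_card this
      _ ≤ _ := Finset.card_union_le _ _
      _ ≤ _ := Nat.add_le_add Finset.card_image_le Finset.card_image_le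
  have hac : M ≤ (S.filter (fun r => x ≤ r.1 ∧ r.1 < x + M)).card
      + (S.filter (fun r => z ≤ r.2.2 ∧ r.2.2 < z + M)).card := by
    rcases hM with h0 | ⟨-, hy', -⟩
    · omega
    have : Finset.range M ⊆
        (S.filter (fun r => x ≤ r.1 ∧ r.1 < x + M)).image (fun r => r.1 - x) ∪
        (S.filter (fun r => z ≤ r.2.2 ∧ r.2.2 < z + M)).image (fun r => z + M - 1 - r.2.2) := by
      intro j hj
      have hj' := Finset.mem_range.1 hj
      obtain ⟨r, hr, hc⟩ := hS.2 (x + j, y, z + M - 1 - j) (by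
        show x + j + y + (z + M - 1 - j) + 1 = n
        omega)
      rcases hc with h | h | h
      · have h : r.1 = x + j := h
        exact Finset.mem_union_left _ (Finset.mem_image.2
          ⟨r, Finset.mem_filter.2 ⟨hr, by omega⟩, by omega⟩)
      · exact absurd h (hy' r hr)
      · have h : r.2.2 = z + M - 1 - j := h
        exact Finset.mem_union_right _ (Finset.mem_image.2
          ⟨r, Finset.mem_filter.2 ⟨hr, by omega⟩, by omega⟩)
    calc M = (Finset.range M).card := (Finset.card_range M).symm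
      _ ≤ _ := Finset.card_le_card this
      _ ≤ _ := Finset.card_union_le _ _
      _ ≤ _ := Nat.add_le_add Finset.card_image_le Finset.card_image_le
  have hbc : M ≤ (S.filter (fun r => y ≤ r.2.1 ∧ r.2.1 < y + M)).card
      + (S.filter (fun r => z ≤ r.2.2 ∧ r.2.2 < z + M)).card := by
    rcases hM with h0 | ⟨hx', -, -⟩
    · omega
    have : Finset.range M ⊆
        (S.filter (fun r => y ≤ r.2.1 ∧ r.2.1 < y + M)).image (fun r => r.2.1 - y) ∪
        (S.filter (fun r => z ≤ r.2.2 ∧ r.2.2 < z + M)).image (fun r => z + M - 1 - r.2.2) := by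
      intro j hj
      have hj' := Finset.mem_range.1 hj
      obtain ⟨r, hr, hc⟩ := hS.2 (x, y + j, z + M - 1 - j) (by
        show x + (y + j) + (z + M - 1 - j) + 1 = n
        omega)
      rcases hc with h | h | h
      · exact absurd h (hx' r hr)
      · have h : r.2.1 = y + j := h
        exact Finset.mem_union_left _ (Finset.mem_image.2
          ⟨r, Finset.mem_filter.2 ⟨hr, by omega⟩, by omega⟩)
      · have h : r.2.2 = z + M - 1 - j := h
        exact Finset.mem_union_right _ (Finset.mem_image.2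
          ⟨r, Finset.mem_filter.2 ⟨hr, by omega⟩, by omega⟩)
    calc M = (Finset.range M).card := (Finset.card_range M).symm
      _ ≤ _ := Finset.card_le_card this
      _ ≤ _ := Finset.card_union_le _ _
      _ ≤ _ := Nat.add_le_add Finset.card_image_le Finset.card_image_le
  -- weights
  have hw : 3 * (S.filter (fun r => r.1 < x)).card + 3 * (S.filter (fun r => r.2.1 < y)).card
      + 3 * (S.filter (fun r => r.2.2 < z)).card
      + 2 * (S.filter (fun r => x ≤ r.1 ∧ r.1 < x + M)).card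
      + 2 * (S.filter (fun r => y ≤ r.2.1 ∧ r.2.1 < y + M)).card
      + 2 * (S.filter (fun r => z ≤ r.2.2 ∧ r.2.2 < z + M)).card ≤ 7 * S.card := by
    simp only [Finset.card_filter, Finset.mul_sum, ← Finset.sum_add_distrib]
    rw [Finset.card_eq_sum_ones, Finset.mul_sum]
    apply Finset.sum_le_sum
    intro r hr
    have hc : r.1 + r.2.1 + r.2.2 + 1 = n := hS.1 r hr
    split_ifs <;> omega
  omega

lemma lower (n : ℕ) (S : Finset (ℕ × ℕ × ℕ)) (hS : IsCovering n S) : 3 * n ≤ 7 * S.card := by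
  classical
  have key : ∀ f : ℕ × ℕ × ℕ → ℕ, ∃ x, (∀ v < x, ∃ r ∈ S, f r = v) ∧ ∀ r ∈ S, f r ≠ x := by
    intro f
    have hex : ∃ v, ∀ r ∈ S, f r ≠ v := by
      obtain ⟨v, hv⟩ := Infinite.exists_notMem_finset (S.image f)
      exact ⟨v, fun r hr h => hv (Finset.mem_image.2 ⟨r, hr, h⟩)⟩
    refine ⟨Nat.find hex, ?_, Nat.find_spec hex⟩
    intro v hv
    have := Nat.find_min hex hv
    push Not at this
    exact this
  obtain ⟨x, hx, hx'⟩ := key (fun r => r.1)
  obtain ⟨y, hy, hy'⟩ := key (fun r => r.2.1)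
  obtain ⟨z, hz, hz'⟩ := key (fun r => r.2.2)
  by_cases h : x + y + z < n
  · exact lower_aux n S hS x y z (n - (x + y + z)) (by omega) hx hy hz (Or.inr ⟨hx', hy', hz'⟩)
  · exact lower_aux n S hS (min x n) (min y (n - min x n)) (n - min x n - min y (n - min x n)) 0
      (by omega) (fun v hv => hx v (by omega)) (fun v hv => hy v (by omega))
      (fun v hv => hz v (by omega)) (Or.inl rfl)

/-! ### The upper bound -/

/-- a rook in a corner reduces `T_{n+2}` to `T_n`. -/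
lemma gam_add_two (n : ℕ) : gam (n + 2) ≤ gam n + 1 := by
  classical
  obtain ⟨S, hS, hc⟩ := exists_opt n
  refine gam_le (S := insert (n + 1, 0, 0) (S.image (fun r => (r.1, r.2.1 + 1, r.2.2 + 1)))) ?_ ?_
  · refine ⟨?_, ?_⟩
    · intro r hr
      rcases Finset.mem_insert.1 hr with h | h
      · subst h; show n + 1 + 0 + 0 + 1 = n + 2; omega
      · obtain ⟨s, hs, rfl⟩ := Finset.mem_image.1 h
        have : s.1 + s.2.1 + s.2.2 + 1 = n := hS.1 s hs
        show s.1 + (s.2.1 + 1) + (s.2.2 + 1) + 1 = n + 2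
        omega
    · rintro ⟨a, b, c⟩ hp
      have hp : a + b + c + 1 = n + 2 := hp
      rcases Nat.eq_zero_or_pos b with hb | hb
      · exact ⟨_, Finset.mem_insert_self _ _, Or.inr (Or.inl hb.symm)⟩
      rcases Nat.eq_zero_or_pos c with hc0 | hc0
      · exact ⟨_, Finset.mem_insert_self _ _, Or.inr (Or.inr hc0.symm)⟩
      obtain ⟨r, hr, hcov⟩ := hS.2 (a, b - 1, c - 1) (by
        show a + (b - 1) + (c - 1) + 1 = n
        omega)
      refine ⟨(r.1, r.2.1 + 1, r.2.2 + 1), Finset.mem_insert_of_mem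
        (Finset.mem_image_of_mem _ hr), ?_⟩
      rcases hcov with h | h | h
      · exact Or.inl h
      · have h : r.2.1 = b - 1 := h
        exact Or.inr (Or.inl (by show r.2.1 + 1 = b; omega))
      · have h : r.2.2 = c - 1 := h
        exact Or.inr (Or.inr (by show r.2.2 + 1 = c; omega))
  · refine le_trans (Finset.card_insert_le _ _) ?_
    have := Finset.card_image_le (s := S) (f := fun r => (r.1, r.2.1 + 1, r.2.2 + 1))
    omega

lemma gam_add (n j : ℕ) : gam (n + 2 * j) ≤ gam n + j := by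
  induction j with
  | zero => simp
  | succ j ih =>
    have := gam_add_two (n + 2 * j)
    have e : n + 2 * (j + 1) = n + 2 * j + 2 := by ring
    rw [e]
    omega

/-- The explicit covering for `n = 24 m + 7`. -/
lemma gam_family_odd (m : ℕ) : gam (24 * m + 7) ≤ 11 * m + 3 := by
  classical
  -- three types of rooks with even coordinates, three types with two odd coordinates
  let S1 : Finset (ℕ × ℕ × ℕ) := (Finset.range (4 * m + 2)).image
    (fun i => (2 * i, 2 * (4 * m + 1 + i), 24 * m + 6 - 2 * i - 2 * (4 * m + 1 + i)))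
  let S2 : Finset (ℕ × ℕ × ℕ) := (Finset.range (4 * m + 1)).image
    (fun i => (2 * (4 * m + 2 + i), 2 * i, 24 * m + 6 - 2 * (4 * m + 2 + i) - 2 * i))
  let S3 : Finset (ℕ × ℕ × ℕ) := (Finset.range m).image
    (fun j => (2 * j + 1, 2 * j + 1, 24 * m + 6 - (2 * j + 1) - (2 * j + 1)))
  let S4 : Finset (ℕ × ℕ × ℕ) := (Finset.range m).image
    (fun j => (2 * (m + j) + 1, 24 * m + 6 - (2 * (m + j) + 1) - (2 * j + 1), 2 * j + 1))
  let S5 : Finset (ℕ × ℕ × ℕ) := (Finset.range m).image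
    (fun j => (24 * m + 6 - (2 * (m + j) + 1) - (2 * (m + j) + 1),
      2 * (m + j) + 1, 2 * (m + j) + 1))
  have c1 : S1.card ≤ 4 * m + 2 := le_trans Finset.card_image_le (by simp)
  have c2 : S2.card ≤ 4 * m + 1 := le_trans Finset.card_image_le (by simp)
  have c3 : S3.card ≤ m := le_trans Finset.card_image_le (by simp)
  have c4 : S4.card ≤ m := le_trans Finset.card_image_le (by simp)
  have c5 : S5.card ≤ m := le_trans Finset.card_image_le (by simp)
  refine gam_le (S := S1 ∪ (S2 ∪ (S3 ∪ (S4 ∪ S5)))) ⟨?_, ?_⟩ ?_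
  · intro r hr
    simp only [Finset.mem_union, S1, S2, S3, S4, S5, Finset.mem_image, Finset.mem_range] at hr
    unfold IsCell
    rcases hr with ⟨i, hi, rfl⟩ | ⟨i, hi, rfl⟩ | ⟨i, hi, rfl⟩ | ⟨i, hi, rfl⟩ | ⟨i, hi, rfl⟩ <;>
      dsimp only <;> omega
  · rintro ⟨a, b, c⟩ hp
    have hp : a + b + c + 1 = 24 * m + 7 := hp
    have m1 : ∀ i < 4 * m + 2, (2 * i, 2 * (4 * m + 1 + i),
        24 * m + 6 - 2 * i - 2 * (4 * m + 1 + i)) ∈ S1 ∪ (S2 ∪ (S3 ∪ (S4 ∪ S5))) := by
      intro i hi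
      exact Finset.mem_union_left _ (Finset.mem_image_of_mem _ (Finset.mem_range.2 hi))
    have m2 : ∀ i < 4 * m + 1, (2 * (4 * m + 2 + i), 2 * i,
        24 * m + 6 - 2 * (4 * m + 2 + i) - 2 * i) ∈ S1 ∪ (S2 ∪ (S3 ∪ (S4 ∪ S5))) := by
      intro i hi
      exact Finset.mem_union_right _ (Finset.mem_union_left _
        (Finset.mem_image_of_mem _ (Finset.mem_range.2 hi)))
    have m3 : ∀ j < m, (2 * j + 1, 2 * j + 1,
        24 * m + 6 - (2 * j + 1) - (2 * j + 1)) ∈ S1 ∪ (S2 ∪ (S3 ∪ (S4 ∪ S5))) := by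
      intro i hi
      exact Finset.mem_union_right _ (Finset.mem_union_right _ (Finset.mem_union_left _
        (Finset.mem_image_of_mem _ (Finset.mem_range.2 hi))))
    have m4 : ∀ j < m, (2 * (m + j) + 1,
        24 * m + 6 - (2 * (m + j) + 1) - (2 * j + 1), 2 * j + 1)
          ∈ S1 ∪ (S2 ∪ (S3 ∪ (S4 ∪ S5))) := by
      intro i hi
      exact Finset.mem_union_right _ (Finset.mem_union_right _ (Finset.mem_union_right _
        (Finset.mem_union_left _ (Finset.mem_image_of_mem _ (Finset.mem_range.2 hi)))))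
    have m5 : ∀ j < m, (24 * m + 6 - (2 * (m + j) + 1) - (2 * (m + j) + 1),
      2 * (m + j) + 1, 2 * (m + j) + 1) ∈ S1 ∪ (S2 ∪ (S3 ∪ (S4 ∪ S5))) := by
      intro i hi
      exact Finset.mem_union_right _ (Finset.mem_union_right _ (Finset.mem_union_right _
        (Finset.mem_union_right _ (Finset.mem_image_of_mem _ (Finset.mem_range.2 hi)))))
    generalize S1 ∪ (S2 ∪ (S3 ∪ (S4 ∪ S5))) = U at m1 m2 m3 m4 m5
    -- even coordinates
    have ha : a % 2 = 0 → a ≤ 16 * m + 4 → ∃ r ∈ U, r.1 = a := by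
      intro h0 h1
      by_cases h : a < 8 * m + 4
      · exact ⟨_, m1 (a / 2) (by omega), by dsimp only; omega⟩
      · exact ⟨_, m2 (a / 2 - (4 * m + 2)) (by omega), by dsimp only; omega⟩
    have hb : b % 2 = 0 → b ≤ 16 * m + 4 → ∃ r ∈ U, r.2.1 = b := by
      intro h0 h1
      by_cases h : b < 8 * m + 2
      · exact ⟨_, m2 (b / 2) (by omega), by dsimp only; omega⟩
      · exact ⟨_, m1 (b / 2 - (4 * m + 1)) (by omega), by dsimp only; omega⟩
    have hc : c % 2 = 0 → c ≤ 16 * m + 4 → ∃ r ∈ U, r.2.2 = c := by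
      intro h0 h1
      by_cases h : c % 4 = 0
      · -- `c = 16 m + 4 - 4 i`
        exact ⟨_, m1 ((16 * m + 4 - c) / 4) (by omega), by dsimp only; omega⟩
      · exact ⟨_, m2 ((16 * m + 2 - c) / 4) (by omega), by dsimp only; omega⟩
    -- small odd coordinates
    have ha' : a % 2 = 1 → a < 4 * m → ∃ r ∈ U, r.1 = a := by
      intro h0 h1
      by_cases h : a < 2 * m
      · exact ⟨_, m3 (a / 2) (by omega), by dsimp only; omega⟩
      · exact ⟨_, m4 (a / 2 - m) (by omega), by dsimp only; omega⟩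
    have hb' : b % 2 = 1 → b < 4 * m → ∃ r ∈ U, r.2.1 = b := by
      intro h0 h1
      by_cases h : b < 2 * m
      · exact ⟨_, m3 (b / 2) (by omega), by dsimp only; omega⟩
      · exact ⟨_, m5 (b / 2 - m) (by omega), by dsimp only; omega⟩
    have hc' : c % 2 = 1 → c < 4 * m → ∃ r ∈ U, r.2.2 = c := by
      intro h0 h1
      by_cases h : c < 2 * m
      · exact ⟨_, m4 (c / 2) (by omega), by dsimp only; omega⟩
      · exact ⟨_, m5 (c / 2 - m) (by omega), by dsimp only; omega⟩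
    have hcase : (a % 2 = 0 ∧ a ≤ 16 * m + 4) ∨ (b % 2 = 0 ∧ b ≤ 16 * m + 4) ∨
        (c % 2 = 0 ∧ c ≤ 16 * m + 4) ∨ (a % 2 = 1 ∧ a < 4 * m) ∨ (b % 2 = 1 ∧ b < 4 * m) ∨
        (c % 2 = 1 ∧ c < 4 * m) := by omega
    rcases hcase with ⟨h1, h2⟩ | ⟨h1, h2⟩ | ⟨h1, h2⟩ | ⟨h1, h2⟩ | ⟨h1, h2⟩ | ⟨h1, h2⟩
    · obtain ⟨r, hr, h⟩ := ha h1 h2; exact ⟨r, hr, Or.inl h⟩
    · obtain ⟨r, hr, h⟩ := hb h1 h2; exact ⟨r, hr, Or.inr (Or.inl h)⟩
    · obtain ⟨r, hr, h⟩ := hc h1 h2; exact ⟨r, hr, Or.inr (Or.inr h)⟩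
    · obtain ⟨r, hr, h⟩ := ha' h1 h2; exact ⟨r, hr, Or.inl h⟩
    · obtain ⟨r, hr, h⟩ := hb' h1 h2; exact ⟨r, hr, Or.inr (Or.inl h)⟩
    · obtain ⟨r, hr, h⟩ := hc' h1 h2; exact ⟨r, hr, Or.inr (Or.inr h)⟩
  · have u1 := Finset.card_union_le S1 (S2 ∪ (S3 ∪ (S4 ∪ S5)))
    have u2 := Finset.card_union_le S2 (S3 ∪ (S4 ∪ S5))
    have u3 := Finset.card_union_le S3 (S4 ∪ S5)
    have u4 := Finset.card_union_le S4 S5
    omega

/-- The explicit covering for `n = 24 m + 20`. -/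
lemma gam_family_even (m : ℕ) : gam (24 * m + 20) ≤ 11 * m + 9 := by
  classical
  let S1 : Finset (ℕ × ℕ × ℕ) := (Finset.range (4 * m + 4)).image
    (fun i => (2 * i + 1, 2 * (4 * m + 3 + i), 24 * m + 18 - 2 * i - 2 * (4 * m + 3 + i)))
  let S2 : Finset (ℕ × ℕ × ℕ) := (Finset.range (4 * m + 3)).image
    (fun i => (2 * (4 * m + 4 + i) + 1, 2 * i, 24 * m + 18 - 2 * (4 * m + 4 + i) - 2 * i))
  let S3 : Finset (ℕ × ℕ × ℕ) := (Finset.range (m + 1)).image
    (fun j => (2 * j, 2 * j + 1, 24 * m + 19 - (2 * j) - (2 * j + 1)))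
  let S4 : Finset (ℕ × ℕ × ℕ) := (Finset.range (m + 1)).image
    (fun j => (2 * (m + 1 + j), 24 * m + 19 - (2 * (m + 1 + j)) - (2 * j + 1), 2 * j + 1))
  let S5 : Finset (ℕ × ℕ × ℕ) := (Finset.range m).image
    (fun j => (24 * m + 19 - (2 * (m + 1 + j) + 1) - (2 * (m + 1 + j) + 1),
      2 * (m + 1 + j) + 1, 2 * (m + 1 + j) + 1))
  have c1 : S1.card ≤ 4 * m + 4 := le_trans Finset.card_image_le (by simp)
  have c2 : S2.card ≤ 4 * m + 3 := le_trans Finset.card_image_le (by simp)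
  have c3 : S3.card ≤ m + 1 := le_trans Finset.card_image_le (by simp)
  have c4 : S4.card ≤ m + 1 := le_trans Finset.card_image_le (by simp)
  have c5 : S5.card ≤ m := le_trans Finset.card_image_le (by simp)
  refine gam_le (S := S1 ∪ (S2 ∪ (S3 ∪ (S4 ∪ S5)))) ⟨?_, ?_⟩ ?_
  · intro r hr
    simp only [Finset.mem_union, S1, S2, S3, S4, S5, Finset.mem_image, Finset.mem_range] at hr
    unfold IsCell
    rcases hr with ⟨i, hi, rfl⟩ | ⟨i, hi, rfl⟩ | ⟨i, hi, rfl⟩ | ⟨i, hi, rfl⟩ | ⟨i, hi, rfl⟩ <;>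
      dsimp only <;> omega
  · rintro ⟨a, b, c⟩ hp
    have hp : a + b + c + 1 = 24 * m + 20 := hp
    have m1 : ∀ i < 4 * m + 4, (2 * i + 1, 2 * (4 * m + 3 + i),
        24 * m + 18 - 2 * i - 2 * (4 * m + 3 + i)) ∈ S1 ∪ (S2 ∪ (S3 ∪ (S4 ∪ S5))) := by
      intro i hi
      exact Finset.mem_union_left _ (Finset.mem_image_of_mem _ (Finset.mem_range.2 hi))
    have m2 : ∀ i < 4 * m + 3, (2 * (4 * m + 4 + i) + 1, 2 * i,
        24 * m + 18 - 2 * (4 * m + 4 + i) - 2 * i) ∈ S1 ∪ (S2 ∪ (S3 ∪ (S4 ∪ S5))) := by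
      intro i hi
      exact Finset.mem_union_right _ (Finset.mem_union_left _
        (Finset.mem_image_of_mem _ (Finset.mem_range.2 hi)))
    have m3 : ∀ j < m + 1, (2 * j, 2 * j + 1,
        24 * m + 19 - (2 * j) - (2 * j + 1)) ∈ S1 ∪ (S2 ∪ (S3 ∪ (S4 ∪ S5))) := by
      intro i hi
      exact Finset.mem_union_right _ (Finset.mem_union_right _ (Finset.mem_union_left _
        (Finset.mem_image_of_mem _ (Finset.mem_range.2 hi))))
    have m4 : ∀ j < m + 1, (2 * (m + 1 + j),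
        24 * m + 19 - (2 * (m + 1 + j)) - (2 * j + 1), 2 * j + 1)
          ∈ S1 ∪ (S2 ∪ (S3 ∪ (S4 ∪ S5))) := by
      intro i hi
      exact Finset.mem_union_right _ (Finset.mem_union_right _ (Finset.mem_union_right _
        (Finset.mem_union_left _ (Finset.mem_image_of_mem _ (Finset.mem_range.2 hi)))))
    have m5 : ∀ j < m, (24 * m + 19 - (2 * (m + 1 + j) + 1) - (2 * (m + 1 + j) + 1),
      2 * (m + 1 + j) + 1, 2 * (m + 1 + j) + 1) ∈ S1 ∪ (S2 ∪ (S3 ∪ (S4 ∪ S5))) := by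
      intro i hi
      exact Finset.mem_union_right _ (Finset.mem_union_right _ (Finset.mem_union_right _
        (Finset.mem_union_right _ (Finset.mem_image_of_mem _ (Finset.mem_range.2 hi)))))
    generalize S1 ∪ (S2 ∪ (S3 ∪ (S4 ∪ S5))) = U at m1 m2 m3 m4 m5
    have ha : a % 2 = 1 → a ≤ 16 * m + 13 → ∃ r ∈ U, r.1 = a := by
      intro h0 h1
      by_cases h : a < 8 * m + 8
      · exact ⟨_, m1 (a / 2) (by omega), by dsimp only; omega⟩
      · exact ⟨_, m2 (a / 2 - (4 * m + 4)) (by omega), by dsimp only; omega⟩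
    have hb : b % 2 = 0 → b ≤ 16 * m + 12 → ∃ r ∈ U, r.2.1 = b := by
      intro h0 h1
      by_cases h : b < 8 * m + 6
      · exact ⟨_, m2 (b / 2) (by omega), by dsimp only; omega⟩
      · exact ⟨_, m1 (b / 2 - (4 * m + 3)) (by omega), by dsimp only; omega⟩
    have hc : c % 2 = 0 → c ≤ 16 * m + 12 → ∃ r ∈ U, r.2.2 = c := by
      intro h0 h1
      by_cases h : c % 4 = 0
      · exact ⟨_, m1 ((16 * m + 12 - c) / 4) (by omega), by dsimp only; omega⟩
      · exact ⟨_, m2 ((16 * m + 10 - c) / 4) (by omega), by dsimp only; omega⟩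
    have ha' : a % 2 = 0 → a < 4 * m + 4 → ∃ r ∈ U, r.1 = a := by
      intro h0 h1
      by_cases h : a < 2 * m + 2
      · exact ⟨_, m3 (a / 2) (by omega), by dsimp only; omega⟩
      · exact ⟨_, m4 (a / 2 - (m + 1)) (by omega), by dsimp only; omega⟩
    have hb' : b % 2 = 1 → b < 4 * m + 3 → ∃ r ∈ U, r.2.1 = b := by
      intro h0 h1
      by_cases h : b < 2 * m + 2
      · exact ⟨_, m3 (b / 2) (by omega), by dsimp only; omega⟩
      · exact ⟨_, m5 (b / 2 - (m + 1)) (by omega), by dsimp only; omega⟩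
    have hc' : c % 2 = 1 → c < 4 * m + 3 → ∃ r ∈ U, r.2.2 = c := by
      intro h0 h1
      by_cases h : c < 2 * m + 2
      · exact ⟨_, m4 (c / 2) (by omega), by dsimp only; omega⟩
      · exact ⟨_, m5 (c / 2 - (m + 1)) (by omega), by dsimp only; omega⟩
    have hcase : (a % 2 = 1 ∧ a ≤ 16 * m + 13) ∨ (b % 2 = 0 ∧ b ≤ 16 * m + 12) ∨
        (c % 2 = 0 ∧ c ≤ 16 * m + 12) ∨ (a % 2 = 0 ∧ a < 4 * m + 4) ∨
        (b % 2 = 1 ∧ b < 4 * m + 3) ∨ (c % 2 = 1 ∧ c < 4 * m + 3) := by omega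
    rcases hcase with ⟨h1, h2⟩ | ⟨h1, h2⟩ | ⟨h1, h2⟩ | ⟨h1, h2⟩ | ⟨h1, h2⟩ | ⟨h1, h2⟩
    · obtain ⟨r, hr, h⟩ := ha h1 h2; exact ⟨r, hr, Or.inl h⟩
    · obtain ⟨r, hr, h⟩ := hb h1 h2; exact ⟨r, hr, Or.inr (Or.inl h)⟩
    · obtain ⟨r, hr, h⟩ := hc h1 h2; exact ⟨r, hr, Or.inr (Or.inr h)⟩
    · obtain ⟨r, hr, h⟩ := ha' h1 h2; exact ⟨r, hr, Or.inl h⟩
    · obtain ⟨r, hr, h⟩ := hb' h1 h2; exact ⟨r, hr, Or.inr (Or.inl h)⟩
    · obtain ⟨r, hr, h⟩ := hc' h1 h2; exact ⟨r, hr, Or.inr (Or.inr h)⟩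
  · have u1 := Finset.card_union_le S1 (S2 ∪ (S3 ∪ (S4 ∪ S5)))
    have u2 := Finset.card_union_le S2 (S3 ∪ (S4 ∪ S5))
    have u3 := Finset.card_union_le S3 (S4 ∪ S5)
    have u4 := Finset.card_union_le S4 S5
    omega

lemma gam_zero : gam 0 ≤ 0 := by
  refine gam_le (S := ∅) ⟨by simp, ?_⟩ (by simp)
  intro p hp
  unfold IsCell at hp
  omega

lemma gam_one : gam 1 ≤ 1 := by
  refine gam_le (S := {(0, 0, 0)}) ⟨?_, ?_⟩ (by simp)
  · intro r hr
    rw [Finset.mem_singleton] at hr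
    subst hr
    rfl
  · rintro ⟨a, b, c⟩ hp
    have hp : a + b + c + 1 = 1 := hp
    exact ⟨(0, 0, 0), by simp, Or.inl (by show 0 = a; omega)⟩

lemma upper (n : ℕ) : 24 * gam n ≤ 11 * n + 18 := by
  rcases Nat.even_or_odd' n with ⟨q, hq | hq⟩
  · -- even
    by_cases h : n < 20
    · have h1 := gam_add 0 q
      have h0 := gam_zero
      rw [zero_add] at h1
      rw [hq]
      omega
    · obtain ⟨m, j, hj, hm⟩ : ∃ m j, j < 12 ∧ n = 24 * m + 20 + 2 * j :=
        ⟨(n - 20) / 24, (n - 20) % 24 / 2, by omega, by omega⟩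
      have h1 := gam_add (24 * m + 20) j
      have h2 := gam_family_even m
      rw [← hm] at h1
      omega
  · by_cases h : n < 7
    · have h1 := gam_add 1 q
      have h0 := gam_one
      have e : 1 + 2 * q = n := by omega
      rw [e] at h1
      omega
    · obtain ⟨m, j, hj, hm⟩ : ∃ m j, j < 12 ∧ n = 24 * m + 7 + 2 * j :=
        ⟨(n - 7) / 24, (n - 7) % 24 / 2, by omega, by omega⟩
      have h1 := gam_add (24 * m + 7) j
      have h2 := gam_family_odd m
      rw [← hm] at h1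
      omega

/-- **Main result.** For every `n`, `3 n ≤ 7 γ(n)` and `24 γ(n) ≤ 11 n + 18`; consequently
`γ(n) < ⌊n/2⌋` for every even `n ≥ 20` and every odd `n ≥ 31`, so the suggested formula
`γ(n) = ⌊n/2⌋` (`n ≥ 6`) is false, and `γ(n)` is determined for the ten listed values of
`n > 12`. -/
theorem result :
    (∀ n, 3 * n ≤ 7 * gam n ∧ 24 * gam n ≤ 11 * n + 18) ∧
    (∀ n, (Even n ∧ 20 ≤ n) ∨ (Odd n ∧ 31 ≤ n) → gam n < n / 2) ∧
    (gam 13 = 6 ∧ gam 15 = 7 ∧ gam 17 = 8 ∧ gam 19 = 9 ∧ gam 20 = 9 ∧ gam 22 = 10 ∧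
      gam 24 = 11 ∧ gam 26 = 12 ∧ gam 31 = 14 ∧ gam 33 = 15) := by
  have hlow : ∀ n, 3 * n ≤ 7 * gam n := by
    intro n
    obtain ⟨S, hS, hc⟩ := exists_opt n
    have := lower n S hS
    omega
  have hup := upper
  refine ⟨fun n => ⟨hlow n, hup n⟩, ?_, ?_⟩
  · rintro n (⟨⟨q, hq⟩, hn⟩ | ⟨⟨q, hq⟩, hn⟩)
    · have := hup n
      omega
    · have := hup n
      omega
  · have l13 := hlow 13
    have l15 := hlow 15
    have l17 := hlow 17
    have l19 := hlow 19
    have l20 := hlow 20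
    have l22 := hlow 22
    have l24 := hlow 24
    have l26 := hlow 26
    have l31 := hlow 31
    have l33 := hlow 33
    have u13 := hup 13
    have u15 := hup 15
    have u17 := hup 17
    have u19 := hup 19
    have u20 := hup 20
    have u22 := hup 22
    have u24 := hup 24
    have u26 := hup 26
    have u31 := hup 31
    have u33 := hup 33
    refine ⟨?_, ?_, ?_, ?_, ?_, ?_, ?_, ?_, ?_, ?_⟩ <;> omega

end Pool.Agent.Results.MP_a338c1_co.RookBounds
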